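import Pool.Agent.R334.CNMapA

/-!
# Normal but not distribution normal numbers: full dimension for every basic sequence

Let `Q` be a basic sequence which is infinite in limit and fully divergent. The digits of a random
number are independent and uniform; almost surely the number is `Q`-normal. Every digit in the upper
quarter of `{0, …, q - 1}` is lowered by `⌊q / 4⌋ + 1`. No digit below `q / 2 - 1` arises or
disappears, hence the new number is still `Q`-normal (only small digits matter, as the `q_n` tend
to infinity), but its orbit stays below `7 / 8`. The map on digits is at most two-to-one, which costs
nothing in dimension since `q_n → ∞`.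
-/

set_option autoImplicit false

namespace Pool.Agent.Results.MP_ba8092_nt.NormalNotDistNormal

open Filter Topology Pool.Agent.R334.CN

/-- For every basic sequence `Q` which is infinite in limit and fully divergent, the set of the real
numbers which are `Q`-normal (of every order) and not `Q`-distribution normal has Hausdorff
dimension `1`. -/
theorem result (q : ℕ → ℕ) (hq : Basic q) (hinf : Tendsto q atTop atTop) (hdiv : FullyDivergent q) :
    dimH {x : ℝ | (∀ k, 1 ≤ k → NormalOfOrder q k x) ∧ ¬ DistNormal q x} = 1 :=
  dim_A hq hinf hdiv

end Pool.Agent.Results.MP_ba8092_nt.NormalNotDistNormal
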