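import Pool.Agent.R334.CNMapB

/-!
# Normal of exactly the orders from a given one: full dimension for every basic sequence

Let `Q` be a basic sequence which is infinite in limit and fully divergent and `ℓ ≥ 1`. In the
expansion of a random number, call a digit small if it is less than `⌊√q_n⌋`, and replace the digit
`0` by `1` in all maximal runs of small digits of length less than `ℓ`. The occurrences of blocks of
length at least `ℓ` lie in the long runs and are not affected (except for finitely many), whereas
almost all the occurrences of the block `0 ⋯ 0` of length `j < ℓ` are destroyed.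
-/

set_option autoImplicit false

namespace Pool.Agent.Results.MP_ba8092_nt.NormalOfLargeOrders

open Filter Topology Pool.Agent.R334.CN

/-- For every basic sequence `Q` which is infinite in limit and fully divergent and every `ℓ ≥ 1`,
the set of the real numbers which are `Q`-normal of all orders `j ≥ ℓ` and not `Q`-normal of any order
`1 ≤ j < ℓ` has Hausdorff dimension `1`. -/
theorem result (q : ℕ → ℕ) (hq : Basic q) (hinf : Tendsto q atTop atTop) (hdiv : FullyDivergent q)
    (l : ℕ) (hl : 1 ≤ l) :
    dimH {x : ℝ | (∀ j, l ≤ j → NormalOfOrder q j x) ∧
      ∀ j, 1 ≤ j → j < l → ¬ NormalOfOrder q j x} = 1 :=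
  dim_B hq hinf hdiv hl

end Pool.Agent.Results.MP_ba8092_nt.NormalOfLargeOrders
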